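import Pool.Agent.Q293.SD.Ana
import Pool.Agent.Q293.SD.Cmp
import Pool.Agent.Q293.SD.Cnt
import Pool.Agent.Q293.SD.Cro
import Pool.Agent.Q293.SD.Cut
import Pool.Agent.Q293.SD.Dis
import Pool.Agent.Q293.SD.Ena
import Pool.Agent.Q293.SD.Eng
import Pool.Agent.Q293.SD.Ent
import Pool.Agent.Q293.SD.Fin
import Pool.Agent.Q293.SD.Geo
import Pool.Agent.Q293.SD.Hub
import Pool.Agent.Q293.SD.Ind
import Pool.Agent.Q293.SD.Law
import Pool.Agent.Q293.SD.Lif
import Pool.Agent.Q293.SD.Men
import Pool.Agent.Q293.SD.Mul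
import Pool.Agent.Q293.SD.Occ
import Pool.Agent.Q293.SD.Pla
import Pool.Agent.Q293.SD.Qli
import Pool.Agent.Q293.SD.Qwk
import Pool.Agent.Q293.SD.Res
import Pool.Agent.Q293.SD.Ske
import Pool.Agent.Q293.SD.Stp
import Pool.Agent.Q293.SD.Vor
import Pool.Agent.Q293.SD.Wdf

/-!
# Random walks on planar graphs of uniform polynomial growth are subdiffusive

Full positive answer to Q1 of MP_2ce0dd_pr.
-/

set_option autoImplicit false

namespace Pool.Agent.Results.MP_2ce0dd_pr.Subdiffusive

open Finset

/-- The ball `B(v, n)`: the vertices at graph distance at most `n` from `v`. -/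
def ball {V : Type} (G : SimpleGraph V) (v : V) (n : ℕ) : Set V := {u | G.dist v u ≤ n}

/-- Uniform polynomial growth `n^d` with the constants `c` and `C`: every ball of radius `n ≥ 1` has
more than `c n^d` and fewer than `C n^d` vertices. -/
def UniformGrowth {V : Type} (G : SimpleGraph V) (c C d : ℝ) : Prop :=
  ∀ (v : V) (n : ℕ), 1 ≤ n →
    c * (n : ℝ) ^ d < ((ball G v n).ncard : ℝ) ∧ ((ball G v n).ncard : ℝ) < C * (n : ℝ) ^ d

open Classical in
/-- The law of simple random walk started at `o`: `law G o t x` is the probability of `X_t = x`.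
The walk starts at `o`, and at each step it moves from its position `y` to each of the neighbours
of `y` with probability `1 / deg y`. -/
noncomputable def law {V : Type} (G : SimpleGraph V) [G.LocallyFinite] (o : V) : ℕ → V → ℝ
  | 0 => fun x => if x = o then 1 else 0
  | t + 1 => fun x => ∑ y ∈ G.neighborFinset x, law G o t y / G.degree y

/-- The expected distance of `X_t` from the starting point `o`. -/
noncomputable def expDist {V : Type} (G : SimpleGraph V) [G.LocallyFinite] (o : V) (t : ℕ) : ℝ :=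
  ∑' x, law G o t x * (G.dist o x : ℝ)

/-- `G` is planar: it can be drawn in the plane without crossings.  The vertices are placed at
distinct points, every edge `e` is drawn as a simple arc `arc e` joining its two ends, no arc passes
through a vertex other than its ends, and two different arcs meet at most in common ends. -/
def IsPlanar {V : Type} (G : SimpleGraph V) : Prop :=
  ∃ (p : V → ℂ) (arc : Sym2 V → Set ℂ), Function.Injective p ∧
    (∀ u v, G.Adj u v → ∃ γ : Path (p u) (p v), Function.Injective γ ∧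
      Set.range γ = arc s(u, v)) ∧
    (∀ e ∈ G.edgeSet, ∀ w, p w ∈ arc e → w ∈ e) ∧
    ∀ e ∈ G.edgeSet, ∀ e' ∈ G.edgeSet, e ≠ e' → ∀ z, z ∈ arc e → z ∈ arc e' →
      ∃ w, w ∈ e ∧ w ∈ e' ∧ z = p w

/-- `S` is non-empty, and any two of its vertices are joined by a walk inside `S`. -/
def IsConn {V : Type} (G : SimpleGraph V) (S : Set V) : Prop :=
  S.Nonempty ∧ ∀ x ∈ S, ∀ y ∈ S, ∃ p : G.Walk x y, ∀ u ∈ p.support, u ∈ S

/-- `G` has a `K_{3,h}` minor: there are pairwise disjoint finite connected branch sets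
`A 0, A 1, A 2, B 0, ..., B (h - 1)` such that each `A i` is joined to each `B j` by an edge. -/
def HasK3Minor {V : Type} (G : SimpleGraph V) (h : ℕ) : Prop :=
  ∃ (A : Fin 3 → Finset V) (B : Fin h → Finset V),
    (∀ i, IsConn G (A i : Set V)) ∧ (∀ j, IsConn G (B j : Set V)) ∧
    (∀ i j, i ≠ j → Disjoint (A i) (A j)) ∧ (∀ i j, i ≠ j → Disjoint (B i) (B j)) ∧
    (∀ i j, Disjoint (A i) (B j)) ∧ ∀ i j, ∃ a ∈ A i, ∃ b ∈ B j, G.Adj a b

/-! ### Proof -/

open Pool.Agent.Q293.SD

theorem law_eq {V : Type} (G : SimpleGraph V) [G.LocallyFinite] (o : V) :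
    ∀ t, law G o t = Pool.Agent.Q293.SD.law G o t
  | 0 => rfl
  | t + 1 => by
    funext x
    simp only [law, Pool.Agent.Q293.SD.law, law_eq G o t]

/-- **Main result.**  For all `c > 0`, `C`, `d > 2` and `h` there are `α < 1/2` and `K` such that,
for every infinite connected locally finite graph `G` of uniform polynomial growth `n^d` with the
constants `c, C` which is planar or, more generally, has no `K_{3,h}` minor, simple random walk from
every vertex `o` satisfies `E d(o, X_t) ≤ K t^α` for all `t ≥ 1`. -/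
theorem result :
    ∀ (c C d : ℝ) (h : ℕ), 0 < c → 2 < d → ∃ α K : ℝ, α < 1 / 2 ∧
      ∀ (V : Type) (G : SimpleGraph V) [G.LocallyFinite], Infinite V → G.Connected →
        UniformGrowth G c C d → (IsPlanar G ∨ ¬ HasK3Minor G h) →
        ∀ (o : V) (t : ℕ), 1 ≤ t → expDist G o t ≤ K * (t : ℝ) ^ α := by
  have hSke : S_SKEC := SkeJ.main
    (CutJ.main IndJ.main QliJ.main CntJ.main MenJ.main HubJ.main LifJ.main CroJ.main GeoJ.main
      VorJ.main QwkJ.main) CntJ.main VorJ.main
  have hMul : ResJ.S_MULC := MulJ.main StpJ.main EngJ.main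
  have hFin : S_FINC := FinJ.main LawJ.main (OccJ.main LawJ.main EnaJ.main EntJ.main CmpJ.main)
    (DisJ.main LawJ.main EnaJ.main EntJ.main) WdfJ.main AnaJ.main
  intro c C d h hc hd
  obtain ⟨α, K, hα, H⟩ := ResJ.main hSke hMul hFin PlaJ.main c C d h hc hd
  refine ⟨α, K, hα, ?_⟩
  intro V G _ hinf hconn hg hpl o t ht
  have h1 := H V G hinf hconn hg hpl o t ht
  unfold expDist
  rw [law_eq]
  exact h1

end Pool.Agent.Results.MP_2ce0dd_pr.Subdiffusive
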